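import Pool.Agent.U575.MU.Quad

/-!
# Quadratic Dirichlet L-functions near the centre: multipliers do not lower the growth of high moments

The family is that of the fundamental discriminants `d` of sign `s`, `2 ≤ |d| < X`: the real primitive
Dirichlet characters of conductor `q = |d|` with `χ(-1) = s`.
-/

set_option autoImplicit false

open Complex Set MeasureTheory

namespace Pool.Agent.Results.MP_ea46f5_nt.MollifiedCentralMoments

noncomputable section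

/-- The characters `χ_d` of the fundamental discriminants `d` of sign `s` with `|d| = q` (`q ≥ 2`): the real
primitive characters modulo `q` with `χ(-1) = s`. -/
def chars (s : ℤ) (q : ℕ) : Set (DirichletCharacter ℂ q) :=
  {χ | χ.IsPrimitive ∧ χ ^ 2 = 1 ∧ χ (-1) = (s : ℂ)}

/-- The `L`-function of a Dirichlet character modulo `q ≥ 1`. -/
def L {q : ℕ} (χ : DirichletCharacter ℂ q) (z : ℂ) : ℂ :=
  if h : q ≠ 0 then haveI : NeZero q := ⟨h⟩; DirichletCharacter.LFunction χ z else 0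

/-- The sum of `f(|d|, χ_d)` over the fundamental discriminants `d` of sign `s` with `2 ≤ |d| < X`. -/
def familySum (s : ℤ) (X : ℝ) (f : (q : ℕ) → DirichletCharacter ℂ q → ℝ) : ℝ :=
  ∑ q ∈ Finset.Ico 2 ⌈X⌉₊, ∑ᶠ χ ∈ chars s q, f q χ

/-- The Dirichlet polynomial `∑_{n ≤ N} b(n) n^{-z}`. -/
def poly (N : ℕ) (b : ℕ → ℂ) (z : ℂ) : ℂ := ∑ n ∈ Finset.Icc 1 N, b n * (n : ℂ) ^ (-z)

/-- `G` is a multiplier near the height `T`: analytic and at most `Y ^ B` for `1/4 ≤ Re z ≤ 6`,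
`|Im z - T| ≤ A`, and between `Y ^ (-δ)` and `Y ^ δ` in absolute value for `3 ≤ Re z ≤ 6`, `|Im z - T| ≤ A`. -/
def Multiplier (G : ℂ → ℂ) (T Y A B δ : ℝ) : Prop :=
  (∀ z : ℂ, 1 / 4 ≤ z.re → z.re ≤ 6 → |z.im - T| ≤ A → AnalyticAt ℂ G z ∧ ‖G z‖ ≤ Y ^ B) ∧
  (∀ z : ℂ, 3 ≤ z.re → z.re ≤ 6 → |z.im - T| ≤ A → Y ^ (-δ) ≤ ‖G z‖ ∧ ‖G z‖ ≤ Y ^ δ)

/-- The Lindelöf bound in the discriminant aspect near the centre: `L(1/2 + it, χ_d) = O_{A,ε}(|d|^ε)`, `|t| ≤ A`. -/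
def Lindelof (s : ℤ) : Prop := ∀ A ε : ℝ, 0 < A → 0 < ε → ∃ C : ℝ, ∀ q : ℕ, 2 ≤ q → ∀ χ ∈ chars s q, ∀ t : ℝ,
  |t| ≤ A → ‖L χ (1 / 2 + t * I)‖ ≤ C * (q : ℝ) ^ ε

/-- All moments near the centre are `O(X^{1+ε})`. -/
def Moments (s : ℤ) : Prop := ∀ (A ε : ℝ) (k : ℕ), 0 < A → 0 < ε → ∃ C : ℝ, ∀ X : ℝ, 1 ≤ X →
  familySum s X (fun _ χ => ∫ t in (-A)..A, ‖L χ (1 / 2 + t * I)‖ ^ (2 * k)) ≤ C * X ^ (1 + ε)

/-- For some `B`: for all `A, η > 0` there is one order `k ≥ 1/η` such that for large `X` the `2k`-th moment near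
the centre can be brought down to `X^{ηk}` by mollifiers, Dirichlet polynomials of length at most `|d|^B` that depend
on `d`, with the coefficients `b(1) = 1`, `|b(n)| ≤ n`. -/
def MollifiedMoments (s : ℤ) : Prop := ∃ B : ℝ, ∀ A η : ℝ, 0 < A → 0 < η → ∃ k : ℕ, 1 / η ≤ k ∧
  ∃ X₀ : ℝ, ∀ X : ℝ, X₀ ≤ X → ∃ (N : ℕ → ℕ) (b : ℕ → ℕ → ℂ),
    (∀ q, 2 ≤ q → 1 ≤ N q ∧ (N q : ℝ) ≤ (q : ℝ) ^ B ∧ b q 1 = 1 ∧ ∀ n, ‖b q n‖ ≤ n) ∧
    familySum s X (fun q χ => ∫ t in (-A)..A, ‖L χ (1 / 2 + t * I) * poly (N q) (b q) (1 / 2 + t * I)‖ ^ (2 * k)) ≤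
      X ^ (η * k)

/-- All central moments are `O(X^{1+ε})`. -/
def CentralMoments (s : ℤ) : Prop := ∀ (ε : ℝ) (k : ℕ), 0 < ε → ∃ C : ℝ, ∀ X : ℝ, 1 ≤ X →
  familySum s X (fun _ χ => ‖L χ (1 / 2)‖ ^ k) ≤ C * X ^ (1 + ε)

/-- **Moments of quadratic Dirichlet L-functions near the centre, with arbitrary multipliers.**
1. A large value survives every multiplier, in every moment: for all `ε > 0` and `B` there are `δ, A, C, X₀` such that
   if `Y = |d| (1 + |T|) ≥ X₀` and `|L(1/2 + iT, χ_d)| ≥ Y^ε` (for instance `T = 0`), then for every multiplier `G` and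
   every real `r > 0`, `∫_{|t - T| ≤ A} |L(1/2 + it, χ_d) G(1/2 + it)|^r dt ≥ Y^{rδ - C}`.
2. The Lindelöf bound near the centre, the bounds `O(X^{1+ε})` for all moments near the centre, and the bounds
   `X^{ηk}` for mollified moments of one order `k ≥ 1/η` for every `η > 0`, are equivalent.
3. They imply that all central moments are `O(X^{1+ε})`. -/
theorem result (s : ℤ) :
    (∀ ε B : ℝ, 0 < ε → ∃ δ A C X₀ : ℝ, 0 < δ ∧ 0 < A ∧ 0 < C ∧ 1 < X₀ ∧ ∀ q : ℕ, 2 ≤ q → ∀ χ ∈ chars s q, ∀ T : ℝ,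
      X₀ ≤ q * (1 + |T|) → ((q : ℝ) * (1 + |T|)) ^ ε ≤ ‖L χ (1 / 2 + T * I)‖ →
      ∀ G : ℂ → ℂ, Multiplier G T (q * (1 + |T|)) A B δ → ∀ r : ℝ, 0 < r →
        ((q : ℝ) * (1 + |T|)) ^ (r * δ - C) ≤
          ∫ t in (T - A)..(T + A), ‖L χ (1 / 2 + t * I) * G (1 / 2 + t * I)‖ ^ r) ∧
    List.TFAE [Lindelof s, Moments s, MollifiedMoments s] ∧
    (MollifiedMoments s → CentralMoments s) := by
  refine ⟨fun ε B hε => Pool.Agent.U575.MU.quad_moment s ε B hε, ?_, fun h => ?_⟩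
  · tfae_have 1 → 2 := fun h => Pool.Agent.U575.MU.QLH.mom (s := s) h
    tfae_have 2 → 3 := fun h => Pool.Agent.U575.MU.QMom.moll (s := s) h
    tfae_have 3 → 1 := fun h => Pool.Agent.U575.MU.QMoll.lh (s := s) h
    tfae_finish
  · exact Pool.Agent.U575.MU.QLH.cen (s := s) (Pool.Agent.U575.MU.QMoll.lh (s := s) h)

end

end Pool.Agent.Results.MP_ea46f5_nt.MollifiedCentralMoments
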