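import Pool.Agent.U575.NC.Lim

/-!
# The moments of quadratic Dirichlet L-functions near the central point

Let `d` run over the fundamental discriminants of sign `s` with `2 ≤ |d| < X`, that is, let `χ = χ_d` run over the real
primitive Dirichlet characters of conductor `q = |d|`, `2 ≤ q < X`, with `χ(-1) = s`. The theorem says that, at every
scale `V(X) ≥ log X` (the main case being `V = log X`), upper bounds `X V^{O(1)}` for the moments of bounded height on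
the critical line, for the moments at arbitrary points of bounded height (for instance the central moments), for the
moments at the distance `C log V / log X` from the line, and the asymptotic formula of Conrey, Farmer, Keating,
Rubinstein and Snaith with the error term `X^{1 - δ/100}` at all the distances `δ ≥ C log V / log X` from the line
(uniformly in bounded imaginary shifts) are equivalent.
-/

set_option autoImplicit false

open Complex Set MeasureTheory Filter Topology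

namespace Pool.Agent.Results.MP_ea46f5_nt.NearTheCentre

noncomputable section

/-- The characters `χ_d` of the fundamental discriminants `d` of sign `s` with `|d| = q` (`q ≥ 2`): the real
primitive characters modulo `q` with `χ(-1) = s`. -/
def chars (s : ℤ) (q : ℕ) : Set (DirichletCharacter ℂ q) :=
  {χ | χ.IsPrimitive ∧ χ ^ 2 = 1 ∧ χ (-1) = (s : ℂ)}

/-- The `L`-function of a Dirichlet character modulo `q ≥ 1`. -/
def L {q : ℕ} (χ : DirichletCharacter ℂ q) (z : ℂ) : ℂ :=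
  if h : q ≠ 0 then haveI : NeZero q := ⟨h⟩; DirichletCharacter.LFunction χ z else 0

/-- The sum of `f(|d|, χ_d)` over the fundamental discriminants `d` of sign `s` with `2 ≤ |d| < X`. -/
def familySum {E : Type} [AddCommMonoid E] (s : ℤ) (X : ℝ) (f : (q : ℕ) → DirichletCharacter ℂ q → E) : E :=
  ∑ q ∈ Finset.Ico 2 ⌈X⌉₊, ∑ᶠ χ ∈ chars s q, f q χ

/-- The local factor of `A_k(z_1, …, z_k)` at the prime `p`. -/
def localFactor {k : ℕ} (z : Fin k → ℂ) (p : ℕ) : ℂ :=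
  (∏ i, ∏ j ∈ Finset.Ici i, (1 - (p : ℂ) ^ (-(1 + z i + z j)))) *
    (1 / 2 * ((∏ j, (1 - (p : ℂ) ^ (-(1 / 2 + z j)))⁻¹) + ∏ j, (1 + (p : ℂ) ^ (-(1 / 2 + z j)))⁻¹) + 1 / (p : ℂ)) *
    (1 + 1 / (p : ℂ))⁻¹

/-- The Euler product `A_k(z_1, …, z_k)`. -/
def A {k : ℕ} (z : Fin k → ℂ) : ℂ := ∏' p : Nat.Primes, localFactor z p

/-- `A_k(z) ∏_{i ≤ j} ζ(1 + z_i + z_j)`. -/
def mainTerm {k : ℕ} (z : Fin k → ℂ) : ℂ := A z * ∏ i, ∏ j ∈ Finset.Ici i, riemannZeta (1 + z i + z j)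

/-- `∑_d ∫_{-H}^{H} |L(σ + it, χ_d)|^m dt`. -/
def lineMoment (s : ℤ) (m : ℕ) (X H σ : ℝ) : ℝ :=
  familySum s X fun _ χ => ∫ t in (-H)..H, ‖L χ ((σ : ℂ) + (t : ℂ) * I)‖ ^ m

/-- `∑_d |L(1/2 + i t_d, χ_d)|^m`. -/
def pointMoment (s : ℤ) (m : ℕ) (X : ℝ) (t : ℕ → ℝ) : ℝ :=
  familySum s X fun q χ => ‖L χ (1 / 2 + (t q : ℂ) * I)‖ ^ m

/-- `∑_d ∏_j L(1/2 + δ + i β_j, χ_d)`. -/
def shiftedMoment {k : ℕ} (s : ℤ) (X δ : ℝ) (β : Fin k → ℝ) : ℂ :=
  familySum s X fun _ χ => ∏ j, L χ (1 / 2 + (δ : ℂ) + I * (β j : ℂ))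

/-- The `m`-th moment on the critical line, at bounded height, is at most `X V^{O(1)}`. -/
def OnTheLine (V : ℝ → ℝ) (s : ℤ) (m : ℕ) : Prop := ∀ H : ℝ, 0 < H → ∃ B X₀ : ℝ, ∀ X : ℝ, X₀ ≤ X →
  lineMoment s m X H (1 / 2) ≤ X * V X ^ B

/-- The `m`-th moment at arbitrary points of bounded height of the critical line is at most `X V^{O(1)}`. -/
def AtPoints (V : ℝ → ℝ) (s : ℤ) (m : ℕ) : Prop := ∀ H : ℝ, 0 < H → ∃ B X₀ : ℝ, ∀ X : ℝ, X₀ ≤ X →
  ∀ t : ℕ → ℝ, (∀ q, |t q| ≤ H) → pointMoment s m X t ≤ X * V X ^ B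

/-- The `m`-th moment, at bounded height, at every distance `C log V / log X`, is at most `X V^{O(1)}`. -/
def NearEvery (V : ℝ → ℝ) (s : ℤ) (m : ℕ) : Prop := ∀ H : ℝ, 0 < H → ∀ C : ℝ, 0 < C → ∃ B X₀ : ℝ, ∀ X : ℝ, X₀ ≤ X →
  lineMoment s m X H (1 / 2 + C * Real.log (V X) / Real.log X) ≤ X * V X ^ B

/-- The same for one constant `C` only (which may depend on the height). -/
def NearSome (V : ℝ → ℝ) (s : ℤ) (m : ℕ) : Prop := ∀ H : ℝ, 0 < H → ∃ C : ℝ, 0 < C ∧ ∃ B X₀ : ℝ, ∀ X : ℝ, X₀ ≤ X →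
  lineMoment s m X H (1 / 2 + C * Real.log (V X) / Real.log X) ≤ X * V X ^ B

/-- The asymptotic formula of order `k` at all the distances `δ`, `C log V / log X ≤ δ ≤ 1/16`, uniformly for
imaginary shifts of bounded size, with the error term `X^{1 - δ/100}`. -/
def Asymptotics (V : ℝ → ℝ) (s : ℤ) (k : ℕ) : Prop := ∀ H : ℝ, 0 < H → ∃ C X₀ : ℝ, 0 < C ∧ ∀ X : ℝ, X₀ ≤ X →
  ∀ δ : ℝ, C * Real.log (V X) / Real.log X ≤ δ → δ ≤ 1 / 16 → ∀ β : Fin k → ℝ, (∀ j, |β j| ≤ H) →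
    ‖shiftedMoment s X δ β - 3 / (Real.pi : ℂ) ^ 2 * X * mainTerm (fun j => (δ : ℂ) + I * (β j : ℂ))‖ ≤
      X ^ (1 - δ / 100)

open Pool.Agent.N879.QM Pool.Agent.U575.NC in
lemma line_eq (s : ℤ) (m : ℕ) (X H σ : ℝ) : lineMoment s m X H σ = JJ s X H m σ :=
  fam_sum s X fun _ χ => ∫ t in (-H)..H, ‖L χ ((σ : ℂ) + (t : ℂ) * I)‖ ^ m

open Pool.Agent.N879.QM Pool.Agent.U575.NC in
lemma point_eq (s : ℤ) (m : ℕ) (X : ℝ) (t : ℕ → ℝ) :
    pointMoment s m X t = ∑ q ∈ Q s X, ‖LL s q ((1 / 2 : ℝ) + t q * I)‖ ^ m := by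
  unfold pointMoment
  refine (fam_sum s X fun q χ => ‖L χ (1 / 2 + (t q : ℂ) * I)‖ ^ m).trans ?_
  refine Finset.sum_congr rfl fun q _ => ?_
  have e : ((1 / 2 : ℝ) : ℂ) = 1 / 2 := by push_cast; rfl
  rw [e]
  rfl

open Pool.Agent.N879.QM Pool.Agent.U575.NC in
lemma shifted_eq {k : ℕ} (s : ℤ) (X δ : ℝ) (β : Fin k → ℝ) :
    shiftedMoment s X δ β = ∑ q ∈ Q s X, PP s q β (1 / 2 + δ) :=
  fam_sum s X fun _ χ => ∏ j, L χ (1 / 2 + (δ : ℂ) + I * (β j : ℂ))

open Pool.Agent.N879.QM Pool.Agent.U575.NC in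
lemma A_eq {k : ℕ} (z : Fin k → ℂ) : A z = Ak z := by
  unfold A Ak
  refine tprod_congr fun p => ?_
  unfold localFactor loc
  rw [← prod_pairs (fun i j => 1 - ((p : ℕ) : ℂ) ^ (-(1 + z i + z j)))]

open Pool.Agent.N879.QM Pool.Agent.U575.NC in
lemma main_eq {k : ℕ} {δ : ℝ} (hδ : 0 < δ) (β : Fin k → ℝ) :
    mainTerm (fun j => (δ : ℂ) + I * (β j : ℂ)) = Mser β (2 * δ) := by
  rw [← MT_eq hδ β]
  unfold mainTerm MT
  rw [A_eq, ← prod_pairs (fun i j => riemannZeta (1 + ((δ : ℂ) + I * (β i : ℂ)) + ((δ : ℂ) + I * (β j : ℂ))))]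
  rfl

lemma c0_eq (X : ℝ) : 3 / (Real.pi : ℂ) ^ 2 * X = ((Pool.Agent.N879.QM.c0 * X : ℝ) : ℂ) := by
  unfold Pool.Agent.N879.QM.c0
  push_cast
  ring

open Pool.Agent.N879.QM Pool.Agent.U575.NC in
lemma asy_iff {V : ℝ → ℝ} (hV : ∀ᶠ X in atTop, Real.log X ≤ V X) (s : ℤ) (k : ℕ) :
    Asymptotics V s k ↔ AsyM V s k := by
  obtain ⟨X3, hX3⟩ := big hV 3
  have hpos : ∀ X : ℝ, X3 ≤ X → ∀ C δ : ℝ, 0 < C → C * Real.log (V X) / Real.log X ≤ δ → 0 < δ := by
    intro X hX C δ hC h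
    obtain ⟨h1, h2, h3⟩ := hX3 X hX
    have hl : 0 < Real.log X := by linarith
    have hv : 0 < Real.log (V X) := Real.log_pos (by linarith)
    exact lt_of_lt_of_le (by positivity) h
  constructor
  · intro h H hH
    obtain ⟨C, X0, hC, h1⟩ := h H hH
    refine ⟨C, max X0 X3, hC, fun X hX δ hδ hδ1 β hβ => ?_⟩
    have h2 := h1 X ((le_max_left _ _).trans hX) δ hδ hδ1 β hβ
    rwa [shifted_eq, main_eq (hpos X ((le_max_right _ _).trans hX) C δ hC hδ), c0_eq] at h2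
  · intro h H hH
    obtain ⟨C, X0, hC, h1⟩ := h H hH
    refine ⟨C, max X0 X3, hC, fun X hX δ hδ hδ1 β hβ => ?_⟩
    have h2 := h1 X ((le_max_left _ _).trans hX) δ hδ hδ1 β hβ
    rwa [shifted_eq, main_eq (hpos X ((le_max_right _ _).trans hX) C δ hC hδ), c0_eq]

/-- **Moments of quadratic Dirichlet L-functions near the centre.** Let `s = ±1` and `V(X) ≥ log X` for large `X`.
1. For every `m` the four upper bounds are equivalent.
2. The upper bound of order `m` implies the asymptotic formulas of all the orders `k ≤ m`.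
3. The asymptotic formula of order `2k` implies the upper bound of order `2k`. (So for all the orders together the
   upper bounds and the asymptotic formulas are equivalent.)
4. The upper bound of order `m` implies, for `k ≤ m`, that there is `C` such that
   `∑_d L(1/2 + δ, χ_d)^k ∼ (3/π²) A_k(0) X (2δ)^{-k(k+1)/2}` for `δ = δ(X) → 0`, `δ ≥ C log V / log X`. -/
theorem result (s : ℤ) (hs : s = 1 ∨ s = -1) (V : ℝ → ℝ) (hV : ∀ᶠ X in atTop, Real.log X ≤ V X) :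
    (∀ m : ℕ, List.TFAE [OnTheLine V s m, AtPoints V s m, NearEvery V s m, NearSome V s m]) ∧
    (∀ k m : ℕ, k ≤ m → OnTheLine V s m → Asymptotics V s k) ∧
    (∀ k : ℕ, Asymptotics V s (2 * k) → OnTheLine V s (2 * k)) ∧
    (∀ k m : ℕ, k ≤ m → OnTheLine V s m → ∃ C : ℝ, 0 < C ∧ ∀ δ : ℝ → ℝ,
      (∀ᶠ X in atTop, C * Real.log (V X) / Real.log X ≤ δ X) → Tendsto δ atTop (𝓝 0) →
      Tendsto (fun X : ℝ => (((2 * δ X) ^ (k * (k + 1) / 2) / X : ℝ) : ℂ) *
        familySum s X (fun _ χ => L χ (1 / 2 + δ X) ^ k)) atTop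
        (𝓝 (3 / (Real.pi : ℂ) ^ 2 * A (fun _ : Fin k => 0)))) := by
  have hline : ∀ m, OnTheLine V s m ↔ Pool.Agent.U575.NC.LineM V s m := fun m => by
    unfold OnTheLine Pool.Agent.U575.NC.LineM
    simp only [line_eq]
  have hpt : ∀ m, AtPoints V s m ↔ Pool.Agent.U575.NC.PtM V s m := fun m => by
    unfold AtPoints Pool.Agent.U575.NC.PtM
    simp only [point_eq]
  have hne : ∀ m, NearEvery V s m ↔ Pool.Agent.U575.NC.NearA V s m := fun m => by
    unfold NearEvery Pool.Agent.U575.NC.NearA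
    simp only [line_eq]
  have hns : ∀ m, NearSome V s m ↔ Pool.Agent.U575.NC.NearS V s m := fun m => by
    unfold NearSome Pool.Agent.U575.NC.NearS
    simp only [line_eq]
  refine ⟨fun m => ?_, fun k m hkm h => ?_, fun k h => ?_, fun k m hkm h => ?_⟩
  · rw [hline, hpt, hne, hns]
    tfae_have 1 → 3 := fun h => Pool.Agent.U575.NC.line_near hV h
    tfae_have 3 → 4 := fun h H hH => ⟨1, one_pos, h H hH 1 one_pos⟩
    tfae_have 4 → 2 := fun h => Pool.Agent.U575.NC.near_pt hV h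
    tfae_have 2 → 1 := fun h => Pool.Agent.U575.NC.pt_line hV h
    tfae_finish
  · exact (asy_iff hV s k).2 (Pool.Agent.U575.NC.line_asy hV hs hkm ((hline m).1 h))
  · rw [two_mul] at h ⊢
    have h1 := Pool.Agent.U575.NC.asy_near hV ((asy_iff hV s (k + k)).1 h)
    exact (hline (k + k)).2 (Pool.Agent.U575.NC.pt_line hV (Pool.Agent.U575.NC.near_pt hV h1))
  · obtain ⟨C, hC, h1⟩ := Pool.Agent.U575.NC.lim_near (k := k) hV
      (Pool.Agent.U575.NC.line_asy hV hs hkm ((hline m).1 h))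
    refine ⟨C, hC, fun δ hδ hδ0 => ?_⟩
    have h2 := h1 δ hδ hδ0
    have e1 : (Pool.Agent.N879.QM.c0 : ℂ) = 3 / (Real.pi : ℂ) ^ 2 := by
      unfold Pool.Agent.N879.QM.c0
      push_cast
      ring
    rw [e1, ← A_eq] at h2
    refine h2.congr fun X => ?_
    congr 1
    exact (Pool.Agent.U575.NC.fam_sum s X fun _ χ => L χ (1 / 2 + (δ X : ℂ)) ^ k).symm

end

end Pool.Agent.Results.MP_ea46f5_nt.NearTheCentre
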